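import Pool.Agent.N795.LR.Small
import Pool.Agent.TH268.PD.StirOrd
import Pool.Agent.TH268.PD.LongRange2

/-!
# Many macroscopic cycles, no macroscopic cycles
-/

set_option autoImplicit false

namespace Pool.Agent.N795.LR

open Finset Equiv Filter Topology
open Pool.Agent.W805.LR (len cnt cyc stirMass manyCyc IsRate2)
open Pool.Agent.TH268.PD (NInv TT top frac law mas Cyc cyOf)

section basic

variable {V : Type} [Fintype V] [DecidableEq V]

/-- reaching a level of the ordered values -/
theorem le_top_iff {Γ : Type} [Finite Γ] (u : Γ → ℝ) (i : ℕ) (ε : ℝ) (hε : 0 < ε) :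
    ε ≤ top u i ↔ i + 1 ≤ Nat.card {γ : Γ // ε ≤ u γ} := by
  constructor
  · intro h
    by_contra hc
    rw [not_le] at hc
    have hne : {x : ℝ | i + 1 ≤ Nat.card {γ : Γ // x ≤ u γ}}.Nonempty := by
      by_contra h0
      rw [Set.not_nonempty_iff_eq_empty] at h0
      unfold top at h
      rw [h0, Real.sSup_empty] at h
      linarith
    -- the values below `ε`
    obtain ⟨m, hm, hmε⟩ : ∃ m < ε, ∀ γ, u γ < ε → u γ ≤ m := by
      rcases Set.eq_empty_or_nonempty {γ : Γ | u γ < ε} with h0 | h0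
      · refine ⟨ε - 1, by linarith, fun γ hγ => ?_⟩
        have : γ ∈ {γ : Γ | u γ < ε} := hγ
        rw [h0] at this
        exact absurd this (Set.notMem_empty _)
      · obtain ⟨γ, hγ, hmax⟩ := (Set.toFinite {γ : Γ | u γ < ε}).exists_maximalFor u _ h0
        refine ⟨u γ, hγ, fun γ' hγ' => ?_⟩
        rcases le_total (u γ') (u γ) with h1 | h1
        · exact h1
        · exact hmax hγ' h1
    have h1 : top u i ≤ m := by
      refine csSup_le hne fun x hx => ?_
      simp only [Set.mem_ofPred_eq] at hx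
      by_contra hxm
      rw [not_le] at hxm
      have h2 : Nat.card {γ : Γ // x ≤ u γ} ≤ Nat.card {γ : Γ // ε ≤ u γ} := by
        refine Nat.card_le_card_of_injective (fun γ : {γ : Γ // x ≤ u γ} =>
          (⟨γ.1, ?_⟩ : {γ : Γ // ε ≤ u γ})) ?_
        · by_contra h3
          rw [not_le] at h3
          have := hmε γ.1 h3
          have := γ.2
          linarith
        · intro a b hab
          exact Subtype.ext (congrArg (fun t : {γ : Γ // ε ≤ u γ} => t.1) hab)
      omega
    linarith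
  · intro h
    exact le_csSup (Pool.Agent.TH268.PD.top_set_bdd u i) h

theorem frac_len [Nonempty V] (g : Perm V) (v : V) :
    frac g (cyOf g v) = len g v / Fintype.card V := by
  rw [Pool.Agent.TH268.PD.Sample.len_card]
  rfl

/-- the `(i+1)`-st cycle is at least `ε N` -/
theorem many_iff [Nonempty V] (g : Perm V) (i : ℕ) (ε : ℝ) (hε : 0 < ε) :
    ε ≤ top (frac g) i ↔ manyCyc g (i + 1) (ε * Fintype.card V) := by
  have hN : (0 : ℝ) < Fintype.card V := by exact_mod_cast Fintype.card_pos
  have : Finite (Cyc g) := Quotient.finite _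
  rw [le_top_iff _ i ε hε]
  constructor
  · intro h
    have : Fintype {γ : Cyc g // ε ≤ frac g γ} := Fintype.ofFinite _
    rw [Nat.card_eq_fintype_card] at h
    obtain ⟨f⟩ : Nonempty (Fin (i + 1) ↪ {γ : Cyc g // ε ≤ frac g γ}) := by
      rw [Function.Embedding.nonempty_iff_card_le, Fintype.card_fin]
      exact h
    have hrep : ∀ a, ∃ v, cyOf g v = (f a).1 := fun a => Quotient.exists_rep _
    choose v hv using hrep
    refine ⟨v, fun a b hab hs => ?_, fun a => ?_⟩
    · refine hab (f.injective (Subtype.ext ?_))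
      rw [← hv a, ← hv b]
      exact ((Pool.Agent.TH268.PD.Sample.cyOf_eq g (v b) (v a)).2 hs.symm)
    · have h1 := (f a).2
      rw [← hv a, frac_len, le_div_iff₀ hN] at h1
      exact h1
  · rintro ⟨v, h1, h2⟩
    have h3 : ∀ a, ε ≤ frac g (cyOf g (v a)) := by
      intro a
      rw [frac_len, le_div_iff₀ hN]
      exact h2 a
    have h4 : Function.Injective fun a : Fin (i + 1) =>
        (⟨cyOf g (v a), h3 a⟩ : {γ : Cyc g // ε ≤ frac g γ}) := by
      intro a b hab
      by_contra hne
      refine h1 a b hne ?_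
      have h5 : cyOf g (v a) = cyOf g (v b) := congrArg Subtype.val hab
      exact ((Pool.Agent.TH268.PD.Sample.cyOf_eq g (v b) (v a)).1 h5).symm
    have h6 := Nat.card_le_card_of_injective _ h4
    rwa [Nat.card_eq_fintype_card, Fintype.card_fin] at h6

open Classical in
/-- one more macroscopic cycle, for nearly invariant laws -/
theorem many_inv [Nonempty V] (μ : Perm V → ℝ) (e : ℝ) (hμ : NInv μ e) (k : ℕ) (hk : 1 ≤ k)
    (s : ℝ) (hs : 8 ≤ s) :
    s ^ 2 / 4 / (Fintype.card V : ℝ) ^ 2 * ∑ g, μ g * (if manyCyc g k s then 1 else 0) - e ≤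
      ∑ g, μ g * (if manyCyc g (k + 1) (s / 4) then 1 else 0) := by
  have hN : (0 : ℝ) < Fintype.card V := by exact_mod_cast Fintype.card_pos
  obtain ⟨F, hF⟩ : ∃ F : Perm V → ℝ, F = fun g => if manyCyc g (k + 1) (s / 4) then 1 else 0 :=
    ⟨_, rfl⟩
  have hF0 : ∀ g, 0 ≤ F g := fun g => by rw [hF]; dsimp only; split_ifs <;> norm_num
  have hF1 : ∀ g, |F g| ≤ 1 := fun g => by rw [hF]; dsimp only; split_ifs <;> norm_num
  have h1 := hμ.2.2.1 F 1 hF1
  rw [one_mul] at h1
  have h2 : ∀ g, s ^ 2 / 4 / (Fintype.card V : ℝ) ^ 2 * (if manyCyc g k s then 1 else 0) ≤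
      TT F g := by
    intro g
    unfold TT
    have h3 : ∑ a, ∑ b, F (g * swap a b) = ∑ x, ∑ y, F (swap x y * g) := by
      rw [← Equiv.sum_comp g fun x => ∑ y, F (swap x y * g)]
      refine Finset.sum_congr rfl fun a _ => ?_
      rw [← Equiv.sum_comp g fun y => F (swap (g a) y * g)]
      refine Finset.sum_congr rfl fun b _ => ?_
      rw [Equiv.mul_swap_eq_swap_mul]
    rw [h3]
    by_cases hm : manyCyc g k s
    · rw [if_pos hm, mul_one]
      refine div_le_div_of_nonneg_right ?_ (by positivity)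
      refine (Pool.Agent.W174.LR.MC.main V g k s hs hk hm).trans ?_
      refine Finset.sum_le_sum fun x _ => ?_
      unfold cnt
      refine Finset.sum_le_sum fun y _ => ?_
      rw [hF]
      dsimp only
      by_cases h4 : manyCyc (swap x y * g) (k + 1) (s / 4)
      · rw [if_pos h4]
        split_ifs <;> norm_num
      · rw [if_neg (fun h => h4 h.2), if_neg h4]
    · rw [if_neg hm, mul_zero]
      exact div_nonneg (Finset.sum_nonneg fun x _ => Finset.sum_nonneg fun y _ => hF0 _)
        (by positivity)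
  have h3 : s ^ 2 / 4 / (Fintype.card V : ℝ) ^ 2 * ∑ g, μ g * (if manyCyc g k s then 1 else 0) ≤
      ∑ g, μ g * TT F g := by
    rw [Finset.mul_sum]
    refine Finset.sum_le_sum fun g _ => ?_
    refine le_trans (le_of_eq ?_) (mul_le_mul_of_nonneg_left (h2 g) (hμ.1 g))
    ring
  have h4 : ∑ g, μ g * F g = ∑ g, μ g * (if manyCyc g (k + 1) (s / 4) then 1 else 0) := by
    rw [hF]
  rw [← h4]
  have h5 := (abs_le.1 h1).2
  linarith

/-- the probability that the `(i + 1)`-st cycle is at least `ε N` -/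
noncomputable def pr (μ : Perm V → ℝ) (i : ℕ) (ε : ℝ) : ℝ :=
  open Classical in ∑ g, μ g * (if ε ≤ top (frac g) i then 1 else 0)

/-- the constants -/
noncomputable def cc (ε c : ℝ) : ℕ → ℝ
  | 0 => c
  | k + 1 => (ε / 4 ^ k) ^ 2 / 8 * cc ε c k

theorem cc_pos (ε c : ℝ) (hε : 0 < ε) (hc : 0 < c) (k : ℕ) : 0 < cc ε c k := by
  induction k with
  | zero => exact hc
  | succ k ih => unfold cc; positivity

open Classical in
theorem chain_many [Nonempty V] (μ : Perm V → ℝ) (e : ℝ) (hμ : NInv μ e) (ε c : ℝ) (hε : 0 < ε)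
    (hc : 0 < c) (h : c ≤ pr μ 0 ε) :
    ∀ k : ℕ, 8 ≤ ε / 4 ^ k * Fintype.card V → (∀ j < k, e ≤ cc ε c (j + 1)) →
      cc ε c k ≤ pr μ k (ε / 4 ^ k) := by
  have hN : (0 : ℝ) < Fintype.card V := by exact_mod_cast Fintype.card_pos
  intro k
  induction k with
  | zero =>
    intro _ _
    simpa [cc] using h
  | succ k ih =>
    intro h8 he
    have h8' : 8 ≤ ε / 4 ^ k * Fintype.card V := by
      refine h8.trans (mul_le_mul_of_nonneg_right ?_ hN.le)
      rw [pow_succ]
      refine div_le_div_of_nonneg_left hε.le (by positivity) ?_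
      have : (0 : ℝ) < 4 ^ k := by positivity
      linarith
    have h1 := ih h8' fun j hj => he j (by omega)
    have h2 := many_inv μ e hμ (k + 1) (by omega) (ε / 4 ^ k * Fintype.card V) h8'
    have e1 : ∀ (i : ℕ) (x : ℝ), 0 < x → pr μ i x =
        ∑ g, μ g * (if manyCyc g (i + 1) (x * Fintype.card V) then 1 else 0) := by
      intro i x hx
      unfold pr
      refine Finset.sum_congr rfl fun g _ => ?_
      simp only [many_iff g i x hx]
    rw [e1 k _ (by positivity)] at h1
    rw [e1 (k + 1) _ (by positivity)]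
    have e2 : ε / 4 ^ k * Fintype.card V / 4 = ε / 4 ^ (k + 1) * Fintype.card V := by
      rw [pow_succ]; ring
    rw [e2] at h2
    have e3 : (ε / 4 ^ k * Fintype.card V) ^ 2 / 4 / (Fintype.card V : ℝ) ^ 2 =
        (ε / 4 ^ k) ^ 2 / 4 := by
      field_simp
    rw [e3] at h2
    have h3 := he k (by omega)
    have h4 : cc ε c (k + 1) = (ε / 4 ^ k) ^ 2 / 8 * cc ε c k := rfl
    have h5 : (ε / 4 ^ k) ^ 2 / 4 * cc ε c k ≤ (ε / 4 ^ k) ^ 2 / 4 *
        ∑ g, μ g * (if manyCyc g (k + 1) (ε / 4 ^ k * Fintype.card V) then 1 else 0) :=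
      mul_le_mul_of_nonneg_left h1 (by positivity)
    have h6 : (ε / 4 ^ k) ^ 2 / 4 * cc ε c k = 2 * cc ε c (k + 1) := by rw [h4]; ring
    linarith

theorem law_prob' (J : V → V → ℝ) (hJ : ∀ x y, 0 ≤ J x y) (t : ℝ) (ht : 0 ≤ t) :
    (∀ g, 0 ≤ law J t g) ∧ ∑ g, law J t g = 1 := by
  have hm := Pool.Agent.W29.LR.CV.stirMass_nonneg J hJ t ht
  have hZ := Pool.Agent.W805.LR.sum_mass J t
  have hZ0 : 0 < ∑ h, stirMass J t h := by rw [hZ]; exact Real.exp_pos _
  refine ⟨fun g => div_nonneg (hm g) hZ0.le, ?_⟩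
  unfold law
  rw [← Finset.sum_div, div_self hZ0.ne']

/-- small times: the mean length of a cycle -/
theorem small_law (J : V → V → ℝ) (hJ : ∀ x y, 0 ≤ J x y) (hs : ∀ x y, J x y = J y x)
    (t : ℝ) (ht : 0 ≤ t) (S : ℝ) (hS : ∀ x, ∑ y, J x y ≤ S) (hq : t * S < 1) (x : V) :
    ∑ g, law J t g * len g x ≤ 1 / (1 - t * S) := by
  have hZ := Pool.Agent.W805.LR.sum_mass J t
  have hZ0 : 0 < ∑ h, stirMass J t h := by rw [hZ]; exact Real.exp_pos _
  have h1 := small J hJ hs 1 one_pos t ht S hS (by simpa using hq) x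
  simp only [one_pow, one_mul, mul_one, inv_one, max_self] at h1
  unfold law
  have e1 : ∑ g, stirMass J t g / (∑ h, stirMass J t h) * len g x =
      (∑ g, stirMass J t g * len g x) / ∑ h, stirMass J t h := by
    rw [Finset.sum_div]
    exact Finset.sum_congr rfl fun g _ => by ring
  rw [e1, div_le_iff₀ hZ0]
  refine h1.trans (le_of_eq ?_)
  ring

/-- small times: no macroscopic cycle -/
theorem small_pr [Nonempty V] (J : V → V → ℝ) (hJ : ∀ x y, 0 ≤ J x y) (hs : ∀ x y, J x y = J y x)
    (t : ℝ) (ht : 0 ≤ t) (S : ℝ) (hS : ∀ x, ∑ y, J x y ≤ S) (hq : t * S < 1) (i : ℕ) (ε : ℝ)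
    (hε : 0 < ε) :
    pr (law J t) i ε ≤ 1 / (ε ^ 2 * (1 - t * S)) / Fintype.card V := by
  classical
  have hN : (0 : ℝ) < Fintype.card V := by exact_mod_cast Fintype.card_pos
  have hl := law_prob' J hJ t ht
  have hlen0 : ∀ (g : Perm V) v, 0 ≤ len g v := fun g v => by
    rw [Pool.Agent.TH268.PD.Sample.len_card]; positivity
  have h1 : ∀ g : Perm V, (if ε ≤ top (frac g) i then (1 : ℝ) else 0) ≤
      (∑ v, len g v) / (ε * Fintype.card V) ^ 2 := by
    intro g
    split_ifs with h
    · rw [many_iff g i ε hε] at h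
      obtain ⟨f, -, hf⟩ := h
      have h2 := hf 0
      rw [le_div_iff₀ (by positivity), one_mul]
      obtain ⟨s, hs⟩ : ∃ s, s = ε * (Fintype.card V : ℝ) := ⟨_, rfl⟩
      rw [← hs] at h2 ⊢
      have hs0 : 0 < s := by rw [hs]; positivity
      have h3 : ∀ v, g.SameCycle (f 0) v → len g v = len g (f 0) := by
        intro v hv
        exact Pool.Agent.TH268.PD.Sample.len_eq_of g (f 0) v
          ((Pool.Agent.TH268.PD.Sample.cyOf_eq g (f 0) v).2 hv)
      have h4 : ∑ v, (if g.SameCycle (f 0) v then len g (f 0) else 0) ≤ ∑ v, len g v := by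
        refine Finset.sum_le_sum fun v _ => ?_
        split_ifs with h5
        · rw [h3 v h5]
        · exact hlen0 g v
      refine le_trans ?_ h4
      have h5 : ∑ v, (if g.SameCycle (f 0) v then len g (f 0) else 0) =
          len g (f 0) * len g (f 0) := by
        have h6 : len g (f 0) = ∑ v, (if g.SameCycle (f 0) v then (1 : ℝ) else 0) := by
          unfold len cnt
          refine Finset.sum_congr rfl fun v _ => ?_
          by_cases h7 : g.SameCycle (f 0) v
          · rw [if_pos h7, if_pos h7]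
          · rw [if_neg h7, if_neg h7]
        obtain ⟨l, hl⟩ : ∃ l, l = len g (f 0) := ⟨_, rfl⟩
        rw [← hl] at h6 ⊢
        have h7 : ∑ v, (if g.SameCycle (f 0) v then l else 0) =
            (∑ v, (if g.SameCycle (f 0) v then (1 : ℝ) else 0)) * l := by
          rw [Finset.sum_mul]
          refine Finset.sum_congr rfl fun v _ => ?_
          split_ifs <;> simp
        rw [h7, ← h6]
      rw [h5]
      nlinarith
    · exact div_nonneg (Finset.sum_nonneg fun v _ => hlen0 g v) (by positivity)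
  unfold pr
  refine (Finset.sum_le_sum fun g _ => mul_le_mul_of_nonneg_left (h1 g) (hl.1 g)).trans ?_
  have e1 : ∑ g, law J t g * ((∑ v, len g v) / (ε * (Fintype.card V : ℝ)) ^ 2) =
      (∑ v, ∑ g, law J t g * len g v) / (ε * (Fintype.card V : ℝ)) ^ 2 := by
    rw [Finset.sum_comm, Finset.sum_div]
    refine Finset.sum_congr rfl fun g _ => ?_
    rw [← Finset.mul_sum]
    ring
  rw [e1]
  have hq0 : 0 < 1 - t * S := by linarith
  have h2 : ∑ v, ∑ g, law J t g * len g v ≤ Fintype.card V * (1 / (1 - t * S)) := by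
    refine (Finset.sum_le_sum fun v _ => small_law J hJ hs t ht S hS hq v).trans (le_of_eq ?_)
    rw [Finset.sum_const, nsmul_eq_mul, Finset.card_univ]
  refine (div_le_div_of_nonneg_right h2 (by positivity)).trans (le_of_eq ?_)
  field_simp

end basic

end Pool.Agent.N795.LR
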