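import Pool.Agent.N795.LR.Trans
import Pool.Agent.R134.PB.TopS

/-!
# The transition of long range stirring
-/

set_option autoImplicit false

namespace Pool.Agent.N795.LR

open Finset Equiv Filter Topology
open Pool.Agent.W805.LR (len cnt cyc stirMass manyCyc IsRate2)
open Pool.Agent.TH268.PD (NInv TT top frac law mas Cyc cyOf)

theorem top_pf {V : Type} [Fintype V] [DecidableEq V] (g : Perm V) (i : ℕ) :
    Pool.Agent.R134.PB.pf g i = top (frac g) i := by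
  unfold Pool.Agent.R134.PB.pf Pool.Agent.TH268.PD.top
  congr 1
  ext x
  rw [Set.mem_ofPred_eq, Set.mem_ofPred_eq, Pool.Agent.TH268.PD.card_cyc g x]

/-- the points in long cycles are in the first cycles -/
theorem mas_le_top {V : Type} [Fintype V] [DecidableEq V] [Nonempty V] (g : Perm V) (k : ℕ)
    (c : ℝ) (hc : 0 < c) (hk : 2 ≤ k * c) :
    mas (c * Fintype.card V) g ≤ ∑ i ∈ range k, top (frac g) i := by
  classical
  have hN : (0 : ℝ) < Fintype.card V := by exact_mod_cast Fintype.card_pos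
  have h1 := Pool.Agent.R134.PB.TopS.main V g k (c / 2) (by positivity) (by linarith)
  simp only [top_pf] at h1
  refine le_trans ?_ h1
  unfold Pool.Agent.TH268.PD.mas
  rw [Pool.Agent.TH268.PD.Sample.cnt_card]
  refine div_le_div_of_nonneg_right ?_ hN.le
  have h2 : Nat.card {v : V // c * (Fintype.card V : ℝ) ≤ len g v} ≤
      Nat.card {v : V // c / 2 * (Fintype.card V : ℝ) < Pool.Agent.Y998.ST.cycleLen g v} := by
    refine Nat.card_le_card_of_injective (fun v => ⟨v.1, ?_⟩) fun a b hab => ?_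
    · have h3 := v.2
      have h4 : len g v.1 = (Pool.Agent.Y998.ST.cycleLen g v.1 : ℝ) := by
        unfold Pool.Agent.W805.LR.len Pool.Agent.Y998.ST.cycleLen
        rw [Pool.Agent.TH268.PD.Sample.cnt_card]
      rw [← h4]
      have h5 : c / 2 * (Fintype.card V : ℝ) < c * (Fintype.card V : ℝ) := by nlinarith
      linarith
    · exact Subtype.ext (congrArg (fun t => t.1) hab)
  exact_mod_cast h2

/-- for long range rates, one macroscopic cycle implies many -/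
theorem many_from_one (d : ℕ) (σ lam : ℝ) (hd : 1 ≤ d) (hσ : 0 < σ) (hσd : σ < d)
    (hlam : 0 < lam) (t : ℝ) (ht : 0 < t) (ε c : ℝ) (hε : 0 < ε) (hc : 0 < c) (i : ℕ) :
    ∃ L₀ : ℕ, ∀ (L : ℕ) [NeZero L], L₀ ≤ L →
      ∀ J : (Fin d → ZMod L) → (Fin d → ZMod L) → ℝ, IsRate2 d L σ lam J →
        c ≤ pr (law J t) 0 ε → cc ε c i ≤ pr (law J t) i (ε / 4 ^ i) := by
  -- the smallest constant
  obtain ⟨e, he, hee⟩ : ∃ e > 0, ∀ j < i, e ≤ cc ε c (j + 1) := by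
    clear ht
    induction i with
    | zero => exact ⟨1, one_pos, fun j hj => absurd hj (by omega)⟩
    | succ i ih =>
      obtain ⟨e, he, h⟩ := ih
      refine ⟨min e (cc ε c (i + 1)), lt_min he (cc_pos ε c hε hc _), fun j hj => ?_⟩
      rcases Nat.lt_succ_iff_lt_or_eq.1 hj with h1 | h1
      · exact (min_le_left _ _).trans (h j h1)
      · rw [h1]; exact min_le_right _ _
  obtain ⟨L₀, hL₀⟩ := Pool.Agent.TH268.PD.far_rate2 d σ lam t
    (max (2 / e ^ 2) (8 * 4 ^ i / ε)) hd hσ hσd hlam ht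
  refine ⟨L₀, fun L _ hL J hJ h => ?_⟩
  obtain ⟨h1, h2, h3, h4⟩ := hL₀ L hL J hJ
  have hNe : Nonempty (Fin d → ZMod L) := ⟨fun _ => 0⟩
  have hμ := Pool.Agent.TH268.PD.law_NInv J _ t ht h1 h2 hJ.2.1
  refine chain_many (law J t) _ hμ ε c hε hc h i ?_ fun j hj => le_trans ?_ (hee j hj)
  · have h5 := (le_max_right _ _).trans h4
    rw [div_le_iff₀ hε] at h5
    rw [div_mul_eq_mul_div, le_div_iff₀ (by positivity)]
    linarith
  · exact Pool.Agent.TH268.PD.eps_le he le_rfl ((le_max_left _ _).trans h3)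

end Pool.Agent.N795.LR

namespace Pool.Agent.N795.LR

open Finset Equiv Filter Topology
open Pool.Agent.W805.LR (len cnt cyc stirMass manyCyc IsRate2)
open Pool.Agent.TH268.PD (NInv TT top frac law mas Cyc cyOf)

section prob

variable {V : Type} [Fintype V] [DecidableEq V]

theorem pr_nonneg (μ : Perm V → ℝ) (hμ : ∀ g, 0 ≤ μ g) (i : ℕ) (ε : ℝ) : 0 ≤ pr μ i ε := by
  classical
  unfold pr
  refine Finset.sum_nonneg fun g _ => mul_nonneg (hμ g) ?_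
  split_ifs <;> norm_num

theorem pr_le_zero [Nonempty V] (μ : Perm V → ℝ) (hμ : ∀ g, 0 ≤ μ g) (i : ℕ) (ε : ℝ)
    (hε : 0 < ε) : pr μ i ε ≤ pr μ 0 ε := by
  classical
  unfold pr
  refine Finset.sum_le_sum fun g _ => mul_le_mul_of_nonneg_left ?_ (hμ g)
  by_cases h : ε ≤ top (frac g) i
  · have h1 : ε ≤ top (frac g) 0 := by
      rw [many_iff g i ε hε] at h
      rw [many_iff g 0 ε hε]
      obtain ⟨f, -, h2⟩ := h
      exact ⟨fun _ => f 0, fun a b hab => absurd (Fin.ext (by omega)) hab, fun _ => h2 0⟩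
    rw [if_pos h, if_pos h1]
  · rw [if_neg h]
    split_ifs <;> norm_num

/-- a macroscopic cycle exists if there are points in macroscopic cycles -/
theorem mas_le_ind [Nonempty V] (g : Perm V) (ε : ℝ) (hε : 0 < ε) :
    mas (ε * Fintype.card V) g ≤ (open Classical in if ε ≤ top (frac g) 0 then 1 else 0) := by
  classical
  have hN : (0 : ℝ) < Fintype.card V := by exact_mod_cast Fintype.card_pos
  split_ifs with h
  · exact Pool.Agent.TH268.PD.mas_le_one _ g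
  · rw [many_iff g 0 ε hε] at h
    unfold Pool.Agent.TH268.PD.mas
    have h1 : cnt (fun v => ε * (Fintype.card V : ℝ) ≤ len g v) = 0 := by
      unfold cnt
      refine Finset.sum_eq_zero fun v _ => ?_
      rw [if_neg]
      intro h2
      exact h ⟨fun _ => v, fun a b hab => absurd (Fin.ext (by omega)) hab, fun _ => h2⟩
    rw [h1, zero_div]

end prob

/-- large times: nearly all points are in macroscopic cycles -/
theorem large_mas (d : ℕ) (σ lam η : ℝ) (hd : 1 ≤ d) (hσ : 0 < σ) (hσd : σ < d)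
    (hlam : 0 < lam) (hη : 0 < η) :
    ∃ t₁ > 0, ∃ ε > 0, ∀ t ≥ t₁, ∃ L₀ : ℕ, ∀ (L : ℕ) [NeZero L], L₀ ≤ L →
      ∀ J : (Fin d → ZMod L) → (Fin d → ZMod L) → ℝ, IsRate2 d L σ lam J →
        1 - η ≤ ∑ g, law J t g * mas (ε * Fintype.card (Fin d → ZMod L)) g := by
  classical
  obtain ⟨t₁, ht₁, ε, hε, H⟩ := Pool.Agent.TH268.PD.large_time d σ lam η hd hσ hσd hlam hη
  refine ⟨t₁, ht₁, ε, hε, fun t ht => ?_⟩
  obtain ⟨L₀, hL₀⟩ := H t ht
  refine ⟨L₀, fun L _ hL J hJ => ?_⟩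
  have h1 := hL₀ L hL J hJ
  have hNe : Nonempty (Fin d → ZMod L) := ⟨fun _ => 0⟩
  have hN : (0 : ℝ) < Fintype.card (Fin d → ZMod L) := by exact_mod_cast Fintype.card_pos
  have hl := law_prob' J (hJ.nonneg hlam) t (ht₁.trans_le ht).le
  have h2 : ∑ g, law J t g * mas (ε * Fintype.card (Fin d → ZMod L)) g =
      1 - (∑ g, law J t g * (cnt fun v => len g v < ε * Fintype.card (Fin d → ZMod L))) /
        Fintype.card (Fin d → ZMod L) := by
    have h3 : ∀ g : Perm (Fin d → ZMod L), law J t g * mas (ε * Fintype.card (Fin d → ZMod L)) g =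
        law J t g - law J t g * (cnt fun v => len g v < ε * Fintype.card (Fin d → ZMod L)) /
          Fintype.card (Fin d → ZMod L) := by
      intro g
      have h4 := Pool.Agent.TH268.PD.one_sub_mas (ε * Fintype.card (Fin d → ZMod L)) g
      rw [mul_div_assoc, ← h4]
      ring
    rw [Finset.sum_congr rfl fun g _ => h3 g, Finset.sum_sub_distrib, hl.2, Finset.sum_div]
  rw [h2]
  have h5 : (∑ g, law J t g * (cnt fun v => len g v < ε * Fintype.card (Fin d → ZMod L))) /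
        Fintype.card (Fin d → ZMod L) ≤ η := by
    rw [div_le_iff₀ hN]
    exact h1
  linarith

/-- large times: many macroscopic cycles -/
theorem large_pr (d : ℕ) (σ lam : ℝ) (hd : 1 ≤ d) (hσ : 0 < σ) (hσd : σ < d) (hlam : 0 < lam) :
    ∃ t₁ : ℝ, 0 < t₁ ∧ ∀ i : ℕ, ∃ ε c : ℝ, 0 < ε ∧ 0 < c ∧ ∀ t : ℝ, t₁ ≤ t →
      ∃ L₀ : ℕ, ∀ (L : ℕ) [NeZero L], L₀ ≤ L →
        ∀ J : (Fin d → ZMod L) → (Fin d → ZMod L) → ℝ, IsRate2 d L σ lam J →
          c ≤ pr (law J t) i ε := by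
  classical
  obtain ⟨t₁, ht₁, ε₁, hε₁, hlarge⟩ := large_mas d σ lam (1 / 2) hd hσ hσd hlam (by norm_num)
  refine ⟨t₁, ht₁, fun i => ?_⟩
  refine ⟨ε₁ / 4 ^ i, cc ε₁ (1 / 2) i, by positivity, cc_pos _ _ hε₁ (by norm_num) i,
    fun t ht => ?_⟩
  have ht0 : 0 < t := lt_of_lt_of_le ht₁ ht
  obtain ⟨L1, hL1⟩ := hlarge t ht
  obtain ⟨L2, hL2⟩ := many_from_one d σ lam hd hσ hσd hlam t ht0 ε₁ (1 / 2) hε₁ (by norm_num) i
  refine ⟨max L1 L2, fun L _ hL J hJ => ?_⟩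
  refine hL2 L ((le_max_right _ _).trans hL) J hJ ?_
  have h3 := hL1 L ((le_max_left _ _).trans hL) J hJ
  have hNe : Nonempty (Fin d → ZMod L) := ⟨fun _ => 0⟩
  have hl := law_prob' J (hJ.nonneg hlam) t ht0.le
  have h4 : ∑ g, law J t g * mas (ε₁ * Fintype.card (Fin d → ZMod L)) g ≤
      pr (law J t) 0 ε₁ := by
    unfold pr
    exact Finset.sum_le_sum fun g _ => mul_le_mul_of_nonneg_left (mas_le_ind g ε₁ hε₁) (hl.1 g)
  linarith

/-- large times: the mass of the longest cycles -/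
theorem large_sum (d : ℕ) (σ lam : ℝ) (hd : 1 ≤ d) (hσ : 0 < σ) (hσd : σ < d) (hlam : 0 < lam)
    (η : ℝ) (hη : 0 < η) :
    ∃ (T : ℝ) (k : ℕ), ∀ t : ℝ, T ≤ t → ∃ L₀ : ℕ, ∀ (L : ℕ) [NeZero L], L₀ ≤ L →
        ∀ J : (Fin d → ZMod L) → (Fin d → ZMod L) → ℝ, IsRate2 d L σ lam J →
          1 - η ≤ ∑ i ∈ range k, ∑ g, law J t g * top (frac g) i := by
  obtain ⟨T, hT, ε, hε, h1⟩ := large_mas d σ lam η hd hσ hσd hlam hη
  obtain ⟨k, hk⟩ := exists_nat_ge (2 / ε)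
  refine ⟨T, k, fun t ht => ?_⟩
  obtain ⟨L1, hL1⟩ := h1 t ht
  refine ⟨L1, fun L _ hL J hJ => ?_⟩
  have h3 := hL1 L hL J hJ
  have hNe : Nonempty (Fin d → ZMod L) := ⟨fun _ => 0⟩
  have hl := law_prob' J (hJ.nonneg hlam) t (hT.trans_le ht).le
  refine h3.trans ?_
  rw [Finset.sum_comm]
  refine Finset.sum_le_sum fun g _ => ?_
  rw [← Finset.mul_sum]
  refine mul_le_mul_of_nonneg_left (mas_le_top g k ε hε ?_) (hl.1 g)
  rwa [div_le_iff₀ hε] at hk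

/-- the transition -/
theorem transition (d : ℕ) (σ lam : ℝ) (hd : 1 ≤ d) (hσ : 0 < σ) (hσd : σ < d) (hlam : 0 < lam) :
    ∃ t₁ : ℝ, 0 < t₁ ∧
      (∀ i : ℕ, ∃ ε c : ℝ, 0 < ε ∧ 0 < c ∧ ∀ t : ℝ, t₁ ≤ t →
        ∃ L₀ : ℕ, ∀ (L : ℕ) [NeZero L], L₀ ≤ L →
          ∀ J : (Fin d → ZMod L) → (Fin d → ZMod L) → ℝ, IsRate2 d L σ lam J →
            c ≤ pr (law J t) i ε) ∧
      (∀ η : ℝ, 0 < η → ∃ (T : ℝ) (k : ℕ), ∀ t : ℝ, T ≤ t →
        ∃ L₀ : ℕ, ∀ (L : ℕ) [NeZero L], L₀ ≤ L →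
          ∀ J : (Fin d → ZMod L) → (Fin d → ZMod L) → ℝ, IsRate2 d L σ lam J →
            1 - η ≤ ∑ i ∈ range k, ∑ g, law J t g * top (frac g) i) ∧
      ∀ (S : ℝ) (J : ∀ L : ℕ, (Fin d → ZMod (L + 1)) → (Fin d → ZMod (L + 1)) → ℝ),
      (∀ L : ℕ, IsRate2 d (L + 1) σ lam (J L)) → (∀ (L : ℕ) (x : Fin d → ZMod (L + 1)),
        ∑ y, J L x y ≤ S) →
      ∃ β : ℝ, 0 < β ∧ 1 ≤ S * β ∧ β ≤ t₁ ∧
        (∀ t : ℝ, 0 ≤ t → t < β → ∀ (i : ℕ) (ε : ℝ), 0 < ε →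
          Tendsto (fun L => pr (law (J L) t) i ε) atTop (𝓝 0)) ∧
        (∀ b : ℝ, β < b → ∃ t : ℝ, β ≤ t ∧ t < b ∧ ∀ i : ℕ, ∃ ε c : ℝ, 0 < ε ∧ 0 < c ∧
          ∃ᶠ L : ℕ in atTop, c ≤ pr (law (J L) t) i ε) ∧
        (∀ t : ℝ, 0 < t → (∃ (i : ℕ) (ε : ℝ), 0 < ε ∧
            ¬ Tendsto (fun L => pr (law (J L) t) i ε) atTop (𝓝 0)) →
          ∀ i : ℕ, ∃ ε c : ℝ, 0 < ε ∧ 0 < c ∧
            ∃ᶠ L : ℕ in atTop, c ≤ pr (law (J L) t) i ε) := by
  classical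
  obtain ⟨t₁, ht₁, hlarge⟩ := large_pr d σ lam hd hσ hσd hlam
  refine ⟨t₁, ht₁, hlarge, fun η hη => large_sum d σ lam hd hσ hσd hlam η hη,
    fun S J hJ hS => ?_⟩
  have hJ0 : ∀ L x y, 0 ≤ J L x y := fun L => (hJ L).nonneg hlam
  have hNe : ∀ L : ℕ, Nonempty (Fin d → ZMod (L + 1)) := fun L => ⟨fun _ => 0⟩
  -- the dichotomy
  have hdich : ∀ t : ℝ, 0 < t → (∃ (i : ℕ) (ε : ℝ), 0 < ε ∧
      ¬ Tendsto (fun L => pr (law (J L) t) i ε) atTop (𝓝 0)) →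
      ∀ i : ℕ, ∃ ε c : ℝ, 0 < ε ∧ 0 < c ∧ ∃ᶠ L : ℕ in atTop, c ≤ pr (law (J L) t) i ε := by
    rintro t ht ⟨i₀, ε, hε, hnot⟩ i
    rw [Metric.tendsto_atTop] at hnot
    push Not at hnot
    obtain ⟨c, hc, hfr⟩ := hnot
    have h1 : ∃ᶠ L : ℕ in atTop, c ≤ pr (law (J L) t) 0 ε := by
      rw [Filter.frequently_atTop]
      intro n
      obtain ⟨m, hm, h2⟩ := hfr n
      refine ⟨m, hm, ?_⟩
      have hl := law_prob' (J m) (hJ0 m) t ht.le
      rw [Real.dist_eq, sub_zero, abs_of_nonneg (pr_nonneg _ hl.1 _ _)] at h2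
      exact h2.trans (pr_le_zero _ hl.1 i₀ ε hε)
    obtain ⟨L2, hL2⟩ := many_from_one d σ lam hd hσ hσd hlam t ht ε c hε hc i
    refine ⟨ε / 4 ^ i, cc ε c i, by positivity, cc_pos _ _ hε hc i, ?_⟩
    refine (h1.and_eventually (eventually_ge_atTop L2)).mono ?_
    rintro L ⟨h3, h4⟩
    exact hL2 (L + 1) (by omega) (J L) (hJ L) h3
  -- small times
  have hcard : Tendsto (fun L : ℕ => (Fintype.card (Fin d → ZMod (L + 1)) : ℝ)) atTop atTop := by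
    have h1 : ∀ L : ℕ, (Fintype.card (Fin d → ZMod (L + 1)) : ℝ) = ((L + 1 : ℕ) : ℝ) ^ d :=
      fun L => Pool.Agent.W805.LR.card_torus d (L + 1)
    simp only [h1]
    refine (tendsto_pow_atTop (by omega)).comp ?_
    exact tendsto_natCast_atTop_atTop.comp (tendsto_add_atTop_nat 1)
  have hsmall : ∀ t : ℝ, 0 ≤ t → t * S < 1 → ∀ (i : ℕ) (ε : ℝ), 0 < ε →
      Tendsto (fun L => pr (law (J L) t) i ε) atTop (𝓝 0) := by
    intro t ht hq i ε hε
    have h1 : Tendsto (fun L : ℕ => 1 / (ε ^ 2 * (1 - t * S)) /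
        (Fintype.card (Fin d → ZMod (L + 1)) : ℝ)) atTop (𝓝 0) :=
      Tendsto.div_atTop tendsto_const_nhds hcard
    refine tendsto_of_tendsto_of_tendsto_of_le_of_le tendsto_const_nhds h1 (fun L => ?_)
      fun L => ?_
    · exact pr_nonneg _ (law_prob' (J L) (hJ0 L) t ht).1 _ _
    · exact small_pr (J L) (hJ0 L) (hJ L).1 t ht S (hS L) hq i ε hε
  -- the critical time
  obtain ⟨A, hA⟩ : ∃ A : Set ℝ, A = {t | 0 ≤ t ∧ ∃ (i : ℕ) (ε : ℝ), 0 < ε ∧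
      ¬ Tendsto (fun L => pr (law (J L) t) i ε) atTop (𝓝 0)} := ⟨_, rfl⟩
  have hAlow : ∀ t ∈ A, 1 ≤ t * S := by
    intro t ht
    rw [hA] at ht
    obtain ⟨h0, i, ε, hε, h1⟩ := ht
    by_contra h2
    exact h1 (hsmall t h0 (not_le.1 h2) i ε hε)
  have hA1 : t₁ ∈ A := by
    rw [hA]
    obtain ⟨ε, c, hε, hc, h1⟩ := hlarge 0
    refine ⟨ht₁.le, 0, ε, hε, fun h2 => ?_⟩
    obtain ⟨L₀, h3⟩ := h1 t₁ le_rfl
    have h4 := h2.eventually_lt_const hc
    obtain ⟨L, h5, h6⟩ := (h4.and (eventually_ge_atTop L₀)).exists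
    have h7 := h3 (L + 1) (by omega) (J L) (hJ L)
    linarith
  have hS0 : 0 < S := by
    have h1 := hAlow t₁ hA1
    by_contra h2
    rw [not_lt] at h2
    nlinarith
  have hAb : ∀ t ∈ A, 1 / S ≤ t := by
    intro t ht
    rw [div_le_iff₀ hS0]
    exact hAlow t ht
  have hbdd : BddBelow A := ⟨1 / S, fun t ht => hAb t ht⟩
  have hβ1 : 1 / S ≤ sInf A := le_csInf ⟨t₁, hA1⟩ hAb
  have hβ0 : 0 < sInf A := lt_of_lt_of_le (by positivity) hβ1
  refine ⟨sInf A, hβ0, ?_, csInf_le hbdd hA1, ?_, ?_, hdich⟩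
  · rw [div_le_iff₀ hS0] at hβ1
    linarith
  · intro t ht0 htβ i ε hε
    by_contra h1
    have h2 : t ∈ A := by rw [hA]; exact ⟨ht0, i, ε, hε, h1⟩
    exact absurd (csInf_le hbdd h2) (not_le.2 htβ)
  · intro b hb
    obtain ⟨t, htA, htb⟩ := exists_lt_of_csInf_lt ⟨t₁, hA1⟩ hb
    have h1 := csInf_le hbdd htA
    refine ⟨t, h1, htb, hdich t (by linarith) ?_⟩
    rw [hA] at htA
    exact htA.2

end Pool.Agent.N795.LR
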