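import Pool.Agent.W805.LR.Cons

/-!
# No long cycles at small times

The cycle of a point under random stirring with any symmetric rates, weighted with
`θ ^ (number of cycles)`, has mean length at most `1 / (1 - Θ t S)`, `Θ = max θ (1 / θ)`, `S` a bound
for the total rate at a point.
-/

set_option autoImplicit false

namespace Pool.Agent.N795.LR

open Finset Equiv Pool.Agent.W805.LR

section words

variable {V : Type} [Fintype V] [DecidableEq V]

/-- Product of the transpositions of a word. -/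
noncomputable def wprod {n : ℕ} (w : Fin n → V × V) : Perm V :=
  (List.ofFn fun i => swap (w i).1 (w i).2).prod

/-- The graph of the letters of a word. -/
def wgraph {n : ℕ} (w : Fin n → V × V) : SimpleGraph V :=
  SimpleGraph.fromRel fun a b => ∃ i, w i = (a, b)

omit [Fintype V] [DecidableEq V] in
lemma wgraph_adj {n : ℕ} (w : Fin n → V × V) (a b : V) :
    (wgraph w).Adj a b ↔ a ≠ b ∧ ((∃ i, w i = (a, b)) ∨ (∃ i, w i = (b, a))) := by
  rw [wgraph, SimpleGraph.fromRel_adj]

omit [Fintype V] [DecidableEq V] in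
lemma cut {n : ℕ} (w : Fin (n + 1) → V × V) (x y : V) (hxy : x ≠ y)
    (h : (wgraph w).Reachable x y) :
    ∃ i z, z ≠ x ∧ (w i = (x, z) ∨ w i = (z, x)) ∧
      (wgraph fun j => w (i.succAbove j)).Reachable z y := by
  classical
  obtain ⟨p, hp⟩ := h.exists_isPath
  cases p with
  | nil => exact absurd rfl hxy
  | @cons _ z _ hadj q =>
    rw [SimpleGraph.Walk.cons_isPath_iff] at hp
    obtain ⟨hq, hx⟩ := hp
    rw [wgraph_adj] at hadj
    obtain ⟨hne, hor⟩ := hadj
    have key : ∀ i, (w i = (x, z) ∨ w i = (z, x)) →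
        (wgraph fun j => w (i.succAbove j)).Reachable z y := by
      intro i hi
      refine ⟨q.transfer _ fun e he => ?_⟩
      induction e using Sym2.ind with
      | _ a b =>
        have ha := q.fst_mem_support_of_mem_edges he
        have hb := q.snd_mem_support_of_mem_edges he
        have hab := q.adj_of_mem_edges he
        rw [SimpleGraph.mem_edgeSet, wgraph_adj]
        rw [wgraph_adj] at hab
        have hax : a ≠ x := fun e => hx (e ▸ ha)
        have hbx : b ≠ x := fun e => hx (e ▸ hb)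
        have hcase : ∀ j a b, a ≠ x → b ≠ x → w j = (a, b) → ∃ k, w (i.succAbove k) = (a, b) := by
          intro j a b ha hb hj
          have hji : j ≠ i := by
            rintro rfl
            rcases hi with hi | hi
            · rw [hi] at hj
              exact ha (Prod.ext_iff.1 hj).1.symm
            · rw [hi] at hj
              exact hb (Prod.ext_iff.1 hj).2.symm
          obtain ⟨k, hk⟩ := Fin.exists_succAbove_eq hji
          exact ⟨k, by rw [hk, hj]⟩
        refine ⟨hab.1, ?_⟩
        rcases hab.2 with ⟨j, hj⟩ | ⟨j, hj⟩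
        · exact Or.inl (hcase j a b hax hbx hj)
        · exact Or.inr (hcase j b a hbx hax hj)
    rcases hor with ⟨i, hi⟩ | ⟨i, hi⟩
    · exact ⟨i, z, hne.symm, Or.inl hi, key i (Or.inl hi)⟩
    · exact ⟨i, z, hne.symm, Or.inr hi, key i (Or.inr hi)⟩

lemma wprod_succ {n : ℕ} (w : Fin (n + 1) → V × V) :
    wprod w = swap (w 0).1 (w 0).2 * wprod fun j => w j.succ := by
  unfold wprod
  rw [List.ofFn_succ, List.prod_cons]

lemma wprod_split (n : ℕ) : ∀ (i : Fin (n + 1)) (w : Fin (n + 1) → V × V),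
    ∃ c : Perm V, wprod w = c * swap (w i).1 (w i).2 * c⁻¹ * wprod fun j => w (i.succAbove j) := by
  induction n with
  | zero =>
    intro i w
    refine ⟨1, ?_⟩
    have hi : i = 0 := Fin.ext (by omega)
    subst hi
    rw [wprod_succ]
    simp
  | succ n ih =>
    intro i w
    refine Fin.cases ?_ (fun i' => ?_) i
    · refine ⟨1, ?_⟩
      rw [wprod_succ]
      simp [Fin.zero_succAbove]
    · obtain ⟨c, hc⟩ := ih i' (fun j => w j.succ)
      refine ⟨swap (w 0).1 (w 0).2 * c, ?_⟩
      rw [wprod_succ, hc, wprod_succ (fun j => w (i'.succ.succAbove j))]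
      simp only [Fin.succ_succAbove_zero, Fin.succ_succAbove_succ, mul_inv_rev, swap_inv]
      simp only [mul_assoc]
      congr 4
      rw [← mul_assoc (swap (w 0).1 (w 0).2) (swap (w 0).1 (w 0).2), swap_mul_self, one_mul]

lemma cyc_cut (θ : ℝ) (hθ : 0 < θ) {n : ℕ} (w : Fin (n + 1) → V × V) (i : Fin (n + 1))
    (h : (w i).1 ≠ (w i).2) :
    θ ^ cyc (wprod w) ≤ max θ θ⁻¹ * θ ^ cyc (wprod fun j => w (i.succAbove j)) := by
  obtain ⟨c, hc⟩ := wprod_split n i w
  obtain ⟨g, hg⟩ : ∃ g, g = wprod fun j => w (i.succAbove j) := ⟨_, rfl⟩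
  rw [← hg] at hc ⊢
  have h1 : wprod w = g * swap (g⁻¹ (c (w i).1)) (g⁻¹ (c (w i).2)) := by
    have e0 : ∀ z, g (g⁻¹ z) = z := fun z => g.apply_symm_apply z
    rw [hc, Equiv.mul_swap_eq_swap_mul, Equiv.mul_swap_eq_swap_mul, e0, e0]
    group
  rw [h1]
  exact Pool.Agent.W29.LR.CV.cyc_bound θ hθ g _ _
    (fun e => h (c.injective (g⁻¹.injective e)))

lemma reach_list {n : ℕ} (w : Fin n → V × V) : ∀ l : List (V × V), (∀ e ∈ l, ∃ i, w i = e) →
    ∀ a, (wgraph w).Reachable a ((l.map fun e => swap e.1 e.2).prod a) := by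
  intro l
  induction l with
  | nil => intro _ a; simp
  | cons e l ih =>
    intro hl a
    have h1 := ih (fun e he => hl e (List.mem_cons_of_mem _ he)) a
    refine h1.trans ?_
    rw [List.map_cons, List.prod_cons, Perm.mul_apply]
    obtain ⟨b, hb⟩ : ∃ b, b = (l.map fun e => swap e.1 e.2).prod a := ⟨_, rfl⟩
    rw [← hb]
    obtain ⟨i, hi⟩ := hl e List.mem_cons_self
    rw [swap_apply_def]
    split_ifs with h2 h3
    · rcases eq_or_ne e.1 e.2 with h4 | h4
      · rw [h2, h4]
      · refine SimpleGraph.Adj.reachable ?_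
        rw [wgraph_adj, h2]
        exact ⟨h4, Or.inl ⟨i, hi⟩⟩
    · rcases eq_or_ne e.1 e.2 with h4 | h4
      · rw [h3, h4]
      · refine SimpleGraph.Adj.reachable ?_
        rw [wgraph_adj, h3]
        exact ⟨h4.symm, Or.inr ⟨i, hi⟩⟩
    · exact SimpleGraph.Reachable.refl _

lemma reach_prod {n : ℕ} (w : Fin n → V × V) (a : V) : (wgraph w).Reachable a (wprod w a) := by
  have h1 : wprod w = ((List.ofFn w).map fun e => swap e.1 e.2).prod := by
    unfold wprod
    rw [List.map_ofFn]
    rfl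
  rw [h1]
  refine reach_list w _ (fun e he => ?_) a
  rw [List.mem_ofFn] at he
  exact he

lemma reach_same {n : ℕ} (w : Fin n → V × V) (a b : V) (h : (wprod w).SameCycle a b) :
    (wgraph w).Reachable a b := by
  obtain ⟨k, -, hk⟩ := h.exists_pow_eq'
  rw [← hk]
  clear hk
  induction k with
  | zero => simp
  | succ k ih =>
    rw [pow_succ', Perm.mul_apply]
    exact ih.trans (reach_prod w _)

end words

section sums

variable {V : Type} [Fintype V] [DecidableEq V]

/-- The number of points connected to `x` by the letters of `w`. -/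
noncomputable def clus {n : ℕ} (w : Fin n → V × V) (x : V) : ℝ :=
  open Classical in ∑ y, if (wgraph w).Reachable x y then (1 : ℝ) else 0

lemma clus_nonneg {n : ℕ} (w : Fin n → V × V) (x : V) : 0 ≤ clus w x := by
  classical
  unfold clus
  exact Finset.sum_nonneg fun y _ => by split_ifs <;> norm_num

lemma len_le_clus {n : ℕ} (w : Fin n → V × V) (x : V) : len (wprod w) x ≤ clus w x := by
  classical
  unfold len cnt clus
  refine Finset.sum_le_sum fun y _ => ?_
  by_cases h : (wprod w).SameCycle x y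
  · rw [if_pos h, if_pos (reach_same w x y h)]
  · rw [if_neg h]
    split_ifs <;> norm_num

/-- Number of times the letter `i` is `(x, z)` or `(z, x)`. -/
def hit (x z : V) (e : V × V) : ℝ :=
  if z ≠ x then (if e = (x, z) then 1 else 0) + (if e = (z, x) then 1 else 0) else 0

lemma hit_nonneg (x z : V) (e : V × V) : 0 ≤ hit x z e := by
  unfold hit
  split_ifs <;> norm_num

lemma clus_le {n : ℕ} (w : Fin (n + 1) → V × V) (x : V) :
    clus w x ≤ 1 + ∑ i, ∑ z, hit x z (w i) * clus (fun j => w (i.succAbove j)) z := by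
  classical
  have h1 : ∀ y, (if (wgraph w).Reachable x y then (1 : ℝ) else 0) ≤ (if x = y then 1 else 0) +
      ∑ i, ∑ z, hit x z (w i) *
        (if (wgraph fun j => w (i.succAbove j)).Reachable z y then (1 : ℝ) else 0) := by
    intro y
    have hnn : ∀ i z, 0 ≤ hit x z (w i) *
        (if (wgraph fun j => w (i.succAbove j)).Reachable z y then (1 : ℝ) else 0) := by
      intro i z
      refine mul_nonneg (hit_nonneg _ _ _) ?_
      split_ifs <;> norm_num
    have hnn2 : 0 ≤ ∑ i, ∑ z, hit x z (w i) *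
        (if (wgraph fun j => w (i.succAbove j)).Reachable z y then (1 : ℝ) else 0) :=
      Finset.sum_nonneg fun i _ => Finset.sum_nonneg fun z _ => hnn i z
    by_cases h : (wgraph w).Reachable x y
    · rw [if_pos h]
      by_cases hxy : x = y
      · rw [if_pos hxy]; linarith
      · rw [if_neg hxy, zero_add]
        obtain ⟨i, z, hz, hi, hr⟩ := cut w x y hxy h
        have h2 : 1 ≤ hit x z (w i) *
            (if (wgraph fun j => w (i.succAbove j)).Reachable z y then (1 : ℝ) else 0) := by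
          rw [if_pos hr, mul_one]
          unfold hit
          rw [if_pos hz]
          rcases hi with hi | hi
          · rw [if_pos hi]
            have : (0 : ℝ) ≤ if w i = (z, x) then 1 else 0 := by split_ifs <;> norm_num
            linarith
          · rw [if_pos hi]
            have : (0 : ℝ) ≤ if w i = (x, z) then 1 else 0 := by split_ifs <;> norm_num
            linarith
        refine h2.trans ?_
        refine le_trans (Finset.single_le_sum (f := fun z => hit x z (w i) *
            (if (wgraph fun j => w (i.succAbove j)).Reachable z y then (1 : ℝ) else 0))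
            (fun z _ => hnn i z) (Finset.mem_univ z)) ?_
        exact Finset.single_le_sum (f := fun i => ∑ z, hit x z (w i) *
            (if (wgraph fun j => w (i.succAbove j)).Reachable z y then (1 : ℝ) else 0))
            (fun i _ => Finset.sum_nonneg fun z _ => hnn i z) (Finset.mem_univ i)
    · rw [if_neg h]
      have : (0 : ℝ) ≤ if x = y then 1 else 0 := by split_ifs <;> norm_num
      linarith
  unfold clus
  refine (Finset.sum_le_sum fun y _ => h1 y).trans (le_of_eq ?_)
  rw [Finset.sum_add_distrib, Finset.sum_ite_eq, if_pos (Finset.mem_univ _)]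
  congr 1
  rw [Finset.sum_comm]
  refine Finset.sum_congr rfl fun i _ => ?_
  rw [Finset.sum_comm]
  refine Finset.sum_congr rfl fun z _ => ?_
  rw [Finset.mul_sum]

/-- Weight of a word. -/
noncomputable def ww (J : V → V → ℝ) (θ : ℝ) {n : ℕ} (w : Fin n → V × V) : ℝ :=
  (∏ i, J (w i).1 (w i).2 / 2) * θ ^ cyc (wprod w)

/-- Total weight of the words of length `n`. -/
noncomputable def zn (J : V → V → ℝ) (θ : ℝ) (n : ℕ) : ℝ := ∑ w : Fin n → V × V, ww J θ w

/-- Mean size of the cluster of `x`. -/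
noncomputable def cn (J : V → V → ℝ) (θ : ℝ) (n : ℕ) (x : V) : ℝ :=
  ∑ w : Fin n → V × V, ww J θ w * clus w x

lemma ww_nonneg (J : V → V → ℝ) (hJ : ∀ x y, 0 ≤ J x y) (θ : ℝ) (hθ : 0 < θ) {n : ℕ}
    (w : Fin n → V × V) : 0 ≤ ww J θ w :=
  mul_nonneg (Finset.prod_nonneg fun i _ => div_nonneg (hJ _ _) (by norm_num)) (by positivity)

lemma cn_nonneg (J : V → V → ℝ) (hJ : ∀ x y, 0 ≤ J x y) (θ : ℝ) (hθ : 0 < θ) (n : ℕ) (x : V) :
    0 ≤ cn J θ n x :=
  Finset.sum_nonneg fun w _ => mul_nonneg (ww_nonneg J hJ θ hθ w) (clus_nonneg w x)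

lemma zn_nonneg (J : V → V → ℝ) (hJ : ∀ x y, 0 ≤ J x y) (θ : ℝ) (hθ : 0 < θ) (n : ℕ) :
    0 ≤ zn J θ n :=
  Finset.sum_nonneg fun w _ => ww_nonneg J hJ θ hθ w

lemma ww_cut (J : V → V → ℝ) (hJ : ∀ x y, 0 ≤ J x y) (θ : ℝ) (hθ : 0 < θ) {n : ℕ}
    (w : Fin (n + 1) → V × V) (i : Fin (n + 1)) (h : (w i).1 ≠ (w i).2) :
    ww J θ w ≤ max θ θ⁻¹ * (J (w i).1 (w i).2 / 2) * ww J θ fun j => w (i.succAbove j) := by
  unfold ww
  rw [Fin.prod_univ_succAbove _ i]
  have h1 := cyc_cut θ hθ w i h
  have h2 : 0 ≤ J (w i).1 (w i).2 / 2 * ∏ j, J (w (i.succAbove j)).1 (w (i.succAbove j)).2 / 2 :=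
    mul_nonneg (div_nonneg (hJ _ _) (by norm_num))
      (Finset.prod_nonneg fun i _ => div_nonneg (hJ _ _) (by norm_num))
  refine (mul_le_mul_of_nonneg_left h1 h2).trans (le_of_eq ?_)
  ring

lemma cn_succ (J : V → V → ℝ) (hJ : ∀ x y, 0 ≤ J x y) (hs : ∀ x y, J x y = J y x) (θ : ℝ)
    (hθ : 0 < θ) (n : ℕ) (x : V) :
    cn J θ (n + 1) x ≤ zn J θ (n + 1) + (n + 1) * (max θ θ⁻¹ * ∑ z, J x z * cn J θ n z) := by
  classical
  have hΘ : 0 < max θ θ⁻¹ := lt_of_lt_of_le hθ (le_max_left _ _)
  have h1 : cn J θ (n + 1) x ≤ ∑ w : Fin (n + 1) → V × V, ww J θ w *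
      (1 + ∑ i, ∑ z, hit x z (w i) * clus (fun j => w (i.succAbove j)) z) :=
    Finset.sum_le_sum fun w _ => mul_le_mul_of_nonneg_left (clus_le w x) (ww_nonneg J hJ θ hθ w)
  refine h1.trans ?_
  simp only [mul_add, mul_one, Finset.sum_add_distrib]
  refine add_le_add le_rfl ?_
  have h0 : ∀ w : Fin (n + 1) → V × V, ww J θ w *
      ∑ i, ∑ z, hit x z (w i) * clus (fun j => w (i.succAbove j)) z =
      ∑ i, ∑ z, ww J θ w * (hit x z (w i) * clus (fun j => w (i.succAbove j)) z) := by
    intro w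
    rw [Finset.mul_sum]
    refine Finset.sum_congr rfl fun i _ => ?_
    rw [Finset.mul_sum]
  rw [Finset.sum_congr rfl fun w _ => h0 w, Finset.sum_comm]
  have h2 : ∀ i : Fin (n + 1), ∑ w : Fin (n + 1) → V × V, ∑ z, ww J θ w *
      (hit x z (w i) * clus (fun j => w (i.succAbove j)) z) ≤
      max θ θ⁻¹ * ∑ z, J x z * cn J θ n z := by
    intro i
    rw [Finset.sum_comm, Finset.mul_sum]
    refine Finset.sum_le_sum fun z _ => ?_
    rw [← (Fin.insertNthEquiv (fun _ : Fin (n + 1) => V × V) i).sum_comp, Fintype.sum_prod_type]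
    have h3 : ∀ (e : V × V) (w : Fin n → V × V),
        ww J θ (Fin.insertNthEquiv (fun _ : Fin (n + 1) => V × V) i (e, w)) *
          (hit x z (Fin.insertNthEquiv (fun _ : Fin (n + 1) => V × V) i (e, w) i) *
            clus (fun j => Fin.insertNthEquiv (fun _ : Fin (n + 1) => V × V) i (e, w)
              (i.succAbove j)) z) ≤
        (max θ θ⁻¹ * (J e.1 e.2 / 2) * hit x z e) * (ww J θ w * clus w z) := by
      intro e w
      have e1 : Fin.insertNthEquiv (fun _ : Fin (n + 1) => V × V) i (e, w) =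
        Fin.insertNth i e w := rfl
      rw [e1]
      have e2 : (fun j => (Fin.insertNth i e w : Fin (n + 1) → V × V) (i.succAbove j)) = w := by
        funext j; rw [Fin.insertNth_apply_succAbove]
      rw [Fin.insertNth_apply_same, e2]
      by_cases he : e.1 = e.2
      · have h4 : hit x z e = 0 := by
          unfold hit
          split_ifs with q1 q2 q3 q4
          · rw [q2] at he; exact absurd he.symm q1
          · rw [q2] at he; exact absurd he.symm q1
          · rw [q4] at he; exact absurd he q1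
          · norm_num
          · rfl
        rw [h4]; simp
      · have h5 := ww_cut J hJ θ hθ (Fin.insertNth i e w) i (by rwa [Fin.insertNth_apply_same])
        rw [Fin.insertNth_apply_same, e2] at h5
        have h6 : 0 ≤ hit x z e * clus w z := mul_nonneg (hit_nonneg _ _ _) (clus_nonneg _ _)
        refine (mul_le_mul_of_nonneg_right h5 h6).trans (le_of_eq ?_)
        ring
    refine (Finset.sum_le_sum fun e _ => Finset.sum_le_sum fun w _ => h3 e w).trans ?_
    have h7 : ∑ e : V × V, ∑ w : Fin n → V × V,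
        (max θ θ⁻¹ * (J e.1 e.2 / 2) * hit x z e) * (ww J θ w * clus w z) =
        (∑ e : V × V, max θ θ⁻¹ * (J e.1 e.2 / 2) * hit x z e) * cn J θ n z := by
      unfold cn
      rw [Finset.sum_mul_sum]
    rw [h7]
    have h8 : ∑ e : V × V, max θ θ⁻¹ * (J e.1 e.2 / 2) * hit x z e ≤ max θ θ⁻¹ * J x z := by
      by_cases hz : z ≠ x
      · have h9 : ∀ e : V × V, max θ θ⁻¹ * (J e.1 e.2 / 2) * hit x z e =
            (if e = (x, z) then max θ θ⁻¹ * (J e.1 e.2 / 2) else 0) +
            (if e = (z, x) then max θ θ⁻¹ * (J e.1 e.2 / 2) else 0) := by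
          intro e
          unfold hit
          rw [if_pos hz, mul_add, mul_ite, mul_ite, mul_one, mul_zero]
        rw [Finset.sum_congr rfl fun e _ => h9 e, Finset.sum_add_distrib, Finset.sum_ite_eq',
          Finset.sum_ite_eq', if_pos (Finset.mem_univ _), if_pos (Finset.mem_univ _), hs z x]
        refine le_of_eq ?_
        ring
      · have h9 : ∀ e : V × V, max θ θ⁻¹ * (J e.1 e.2 / 2) * hit x z e = 0 := by
          intro e
          unfold hit
          rw [if_neg hz, mul_zero]
        rw [Finset.sum_congr rfl fun e _ => h9 e, Finset.sum_const_zero]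
        exact mul_nonneg hΘ.le (hJ _ _)
    refine (mul_le_mul_of_nonneg_right h8 (cn_nonneg J hJ θ hθ n z)).trans (le_of_eq ?_)
    ring
  refine (Finset.sum_le_sum fun i _ => h2 i).trans (le_of_eq ?_)
  rw [Finset.sum_const, Finset.card_univ, Fintype.card_fin, nsmul_eq_mul]
  push_cast
  ring

lemma cn_zero (J : V → V → ℝ) (θ : ℝ) (x : V) : cn J θ 0 x = zn J θ 0 := by
  classical
  unfold cn zn
  refine Finset.sum_congr rfl fun w _ => ?_
  have h1 : clus w x = 1 := by
    unfold clus
    have h2 : ∀ y, (if (wgraph w).Reachable x y then (1 : ℝ) else 0) = if x = y then 1 else 0 := by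
      intro y
      by_cases hxy : x = y
      · rw [if_pos hxy, if_pos (hxy ▸ SimpleGraph.Reachable.refl _)]
      · rw [if_neg hxy, if_neg]
        rintro ⟨p⟩
        cases p with
        | nil => exact hxy rfl
        | cons h q =>
          rw [wgraph_adj] at h
          rcases h.2 with ⟨i, -⟩ | ⟨i, -⟩
          · exact i.elim0
          · exact i.elim0
    rw [Finset.sum_congr rfl fun y _ => h2 y, Finset.sum_ite_eq, if_pos (Finset.mem_univ _)]
  rw [h1, mul_one]

lemma partial_bound (J : V → V → ℝ) (hJ : ∀ x y, 0 ≤ J x y) (hs : ∀ x y, J x y = J y x) (θ : ℝ)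
    (hθ : 0 < θ) (t : ℝ) (ht : 0 ≤ t) (S : ℝ) (hS : ∀ x, ∑ y, J x y ≤ S)
    (hq : max θ θ⁻¹ * t * S < 1) (Z : ℝ)
    (hZ : ∀ M : ℕ, ∑ n ∈ range M, t ^ n / (n.factorial : ℝ) * zn J θ n ≤ Z) :
    ∀ (M : ℕ) (x : V), ∑ n ∈ range M, t ^ n / (n.factorial : ℝ) * cn J θ n x ≤
      Z / (1 - max θ θ⁻¹ * t * S) := by
  have hΘ : 0 < max θ θ⁻¹ := lt_of_lt_of_le hθ (le_max_left _ _)
  have hZ0 : 0 ≤ Z := by simpa using hZ 0
  have hq0 : 0 < 1 - max θ θ⁻¹ * t * S := by linarith
  have hB : 0 ≤ Z / (1 - max θ θ⁻¹ * t * S) := div_nonneg hZ0 hq0.le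
  intro M
  induction M with
  | zero => intro x; simpa using hB
  | succ M ih =>
    intro x
    rw [Finset.sum_range_succ']
    have h1 : ∀ n ∈ range M, t ^ (n + 1) / ((n + 1).factorial : ℝ) * cn J θ (n + 1) x ≤
        t ^ (n + 1) / ((n + 1).factorial : ℝ) * zn J θ (n + 1) +
          max θ θ⁻¹ * t * ∑ z, J x z * (t ^ n / (n.factorial : ℝ) * cn J θ n z) := by
      intro n _
      have h2 : 0 ≤ t ^ (n + 1) / ((n + 1).factorial : ℝ) := by positivity
      refine (mul_le_mul_of_nonneg_left (cn_succ J hJ hs θ hθ n x) h2).trans (le_of_eq ?_)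
      rw [mul_add]
      congr 1
      have h3 : t ^ (n + 1) / ((n + 1).factorial : ℝ) * ((n : ℝ) + 1) =
          t * (t ^ n / (n.factorial : ℝ)) := by
        rw [Nat.factorial_succ, pow_succ]
        push_cast
        have h4 : (n.factorial : ℝ) ≠ 0 := by positivity
        have h5 : (n : ℝ) + 1 ≠ 0 := by positivity
        field_simp
      calc t ^ (n + 1) / ((n + 1).factorial : ℝ) * ((n + 1) * (max θ θ⁻¹ *
            ∑ z, J x z * cn J θ n z)) =
            (t ^ (n + 1) / ((n + 1).factorial : ℝ) * ((n : ℝ) + 1)) * max θ θ⁻¹ *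
              ∑ z, J x z * cn J θ n z := by ring
        _ = max θ θ⁻¹ * t * ((t ^ n / (n.factorial : ℝ)) * ∑ z, J x z * cn J θ n z) := by
            rw [h3]; ring
        _ = _ := by
            rw [Finset.mul_sum]
            congr 1
            refine Finset.sum_congr rfl fun z _ => ?_
            ring
    have h6 : ∑ n ∈ range M, t ^ (n + 1) / ((n + 1).factorial : ℝ) * cn J θ (n + 1) x +
        t ^ 0 / ((0 : ℕ).factorial : ℝ) * cn J θ 0 x ≤
        (∑ n ∈ range M, t ^ (n + 1) / ((n + 1).factorial : ℝ) * zn J θ (n + 1) +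
          t ^ 0 / ((0 : ℕ).factorial : ℝ) * zn J θ 0) +
        max θ θ⁻¹ * t * ∑ z, J x z * ∑ n ∈ range M, (t ^ n / (n.factorial : ℝ) * cn J θ n z) := by
      rw [cn_zero]
      have h7 := Finset.sum_le_sum h1
      rw [Finset.sum_add_distrib] at h7
      have h8 : ∑ n ∈ range M, max θ θ⁻¹ * t *
          ∑ z, J x z * (t ^ n / (n.factorial : ℝ) * cn J θ n z) =
          max θ θ⁻¹ * t * ∑ z, J x z * ∑ n ∈ range M, (t ^ n / (n.factorial : ℝ) * cn J θ n z) := by
        rw [← Finset.mul_sum, Finset.sum_comm]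
        congr 1
        refine Finset.sum_congr rfl fun z _ => ?_
        rw [Finset.mul_sum]
      rw [h8] at h7
      linarith
    refine h6.trans ?_
    rw [← Finset.sum_range_succ' (fun n => t ^ n / (n.factorial : ℝ) * zn J θ n) M]
    have h9 := hZ (M + 1)
    have h10 : ∑ z, J x z * ∑ n ∈ range M, (t ^ n / (n.factorial : ℝ) * cn J θ n z) ≤
        S * (Z / (1 - max θ θ⁻¹ * t * S)) := by
      refine (Finset.sum_le_sum fun z _ => mul_le_mul_of_nonneg_left (ih z) (hJ x z)).trans ?_
      rw [← Finset.sum_mul]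
      exact mul_le_mul_of_nonneg_right (hS x) hB
    have h11 := mul_le_mul_of_nonneg_left h10 (mul_nonneg hΘ.le ht)
    have h12 : Z + max θ θ⁻¹ * t * (S * (Z / (1 - max θ θ⁻¹ * t * S))) =
        Z / (1 - max θ θ⁻¹ * t * S) := by
      obtain ⟨b, hb⟩ : ∃ b, b = 1 - max θ θ⁻¹ * t * S := ⟨_, rfl⟩
      rw [← hb] at hq0 ⊢
      have h13 : max θ θ⁻¹ * t * S = 1 - b := by rw [hb]; ring
      have h14 : max θ θ⁻¹ * t * (S * (Z / b)) = (max θ θ⁻¹ * t * S) * (Z / b) := by ring
      rw [h14, h13]
      field_simp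
      ring
    linarith

lemma ring_words (J : V → V → ℝ) (n : ℕ) (F : Perm V → ℝ) :
    ∑ g, ringSum J n g * F g = ∑ w : Fin n → V × V, (∏ i, J (w i).1 (w i).2 / 2) * F (wprod w) := by
  classical
  have h1 : ∀ g, ringSum J n g * F g = ∑ w : Fin n → V × V, (∏ i, J (w i).1 (w i).2 / 2) *
      (if wprod w = g then F (wprod w) else 0) := by
    intro g
    rw [sum_words, Finset.sum_mul]
    refine Finset.sum_congr rfl fun w _ => ?_
    unfold wprod
    split_ifs with h
    · rw [h]; ring
    · ring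
  rw [Finset.sum_congr rfl fun g _ => h1 g, Finset.sum_comm]
  refine Finset.sum_congr rfl fun w _ => ?_
  rw [← Finset.mul_sum, Finset.sum_ite_eq, if_pos (Finset.mem_univ _)]

lemma mass_sum (J : V → V → ℝ) (t : ℝ) (F : Perm V → ℝ) :
    HasSum (fun n : ℕ => t ^ n / (n.factorial : ℝ) * ∑ g, ringSum J n g * F g)
      (∑ g, stirMass J t g * F g) := by
  have h1 : ∀ g : Perm V, HasSum (fun n : ℕ => t ^ n / (n.factorial : ℝ) * ringSum J n g * F g)
      (stirMass J t g * F g) := fun g =>
    (Pool.Agent.W762.LR.QS.summ J t g).hasSum.mul_right _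
  have h2 := hasSum_sum fun (g : Perm V) (_ : g ∈ Finset.univ) => h1 g
  refine h2.congr_fun ?_
  intro n
  rw [Finset.mul_sum]
  exact Finset.sum_congr rfl fun g _ => by ring

/-- **No long cycles at small times**: the mean length of the cycle of any point is at most
`1 / (1 - Θ t S)`. -/
theorem small (J : V → V → ℝ) (hJ : ∀ x y, 0 ≤ J x y) (hs : ∀ x y, J x y = J y x) (θ : ℝ)
    (hθ : 0 < θ) (t : ℝ) (ht : 0 ≤ t) (S : ℝ) (hS : ∀ x, ∑ y, J x y ≤ S)
    (hq : max θ θ⁻¹ * t * S < 1) (x : V) :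
    ∑ g, stirMass J t g * (θ ^ cyc g * len g x) ≤
      (∑ g, stirMass J t g * θ ^ cyc g) / (1 - max θ θ⁻¹ * t * S) := by
  classical
  have hz : ∀ n, zn J θ n = ∑ g, ringSum J n g * θ ^ cyc g := by
    intro n
    rw [ring_words J n fun g => θ ^ cyc g]
    rfl
  have hZs := mass_sum J t fun g => θ ^ cyc g
  have hZ : ∀ M : ℕ, ∑ n ∈ range M, t ^ n / (n.factorial : ℝ) * zn J θ n ≤
      ∑ g, stirMass J t g * θ ^ cyc g := by
    intro M
    simp only [hz]
    refine sum_le_hasSum _ (fun n _ => ?_) hZs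
    rw [← hz]
    exact mul_nonneg (by positivity) (zn_nonneg J hJ θ hθ n)
  have hb := partial_bound J hJ hs θ hθ t ht S hS hq _ hZ
  have hL := mass_sum J t fun g => θ ^ cyc g * len g x
  refine le_of_tendsto' hL.tendsto_sum_nat fun M => le_trans (Finset.sum_le_sum fun n _ => ?_)
    (hb M x)
  refine mul_le_mul_of_nonneg_left ?_ (by positivity)
  rw [ring_words J n fun g => θ ^ cyc g * len g x]
  unfold cn ww
  refine Finset.sum_le_sum fun w _ => ?_
  rw [mul_assoc]
  refine mul_le_mul_of_nonneg_left ?_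
    (Finset.prod_nonneg fun i _ => div_nonneg (hJ _ _) (by norm_num))
  exact mul_le_mul_of_nonneg_left (len_le_clus w x) (by positivity)

end sums

end Pool.Agent.N795.LR
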